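import Pool.Agent.FKP.Stmts

/-!
# AUT: the automorphism `a ↦ rev a`
-/

set_option autoImplicit false

open Finset

noncomputable section

namespace Pool.Agent.FKP.H17

open Pool.Agent.FKP

theorem aut : AutStmt := by
  intro N
  have hne : ∀ {a b : Fin N}, a ≠ b → Fin.rev a ≠ Fin.rev b := fun h => Fin.rev_injective.ne h
  obtain ⟨f, hf, hP⟩ := exists_lift (N := N) (P N) pointed'
    (fun a b => X (Fin.rev b) (Fin.rev a))
    (fun a b hab => X_mem (Fin.rev_lt_rev.2 hab)) (fun a b _ => X_sq _ _)
    (fun a b c hab hbc => by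
      rw [X_path' (hne hbc.ne') (hne hab.ne') (hne (hab.trans hbc).ne'), add_comm])
    (fun a b c hab hbc => by
      rw [X_path (hne hbc.ne') (hne hab.ne') (hne (hab.trans hbc).ne'), add_comm])
    (fun a b c d _ _ h1 h2 h3 h4 => X_comm (hne h4) (hne h3) (hne h2) (hne h1))
  have hX : ∀ a b, f (X a b) = X (Fin.rev b) (Fin.rev a) := by
    intro a b
    rcases lt_trichotomy a b with h | h | h
    · exact hf a b h
    · subst h; rw [X_self, X_self, map_zero]
    · rw [X_neg b a, map_neg, hf b a h, X_neg (Fin.rev a) (Fin.rev b)]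
  refine ⟨f, hX, hP, ?_⟩
  have hθ : ∀ i : Fin N, f (θ i) = -θ (Fin.rev i) := by
    intro i
    unfold θ
    rw [map_sum, ← Finset.sum_neg_distrib]
    have h1 : ∀ j, f (X i j) = -X (Fin.rev i) (Fin.rev j) := fun j => by
      rw [hX, X_neg (Fin.rev i) (Fin.rev j)]
    rw [Finset.sum_congr rfl fun j _ => h1 j]
    exact Equiv.sum_comp Fin.revPerm (fun j : Fin N => -(X (Fin.rev i) j : A N))
  intro p
  have key : f.comp (ev N) = (ev N).comp
      (MvPolynomial.eval₂Hom MvPolynomial.C (fun i => -MvPolynomial.X (Fin.rev i))) := by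
    apply hom_ext
    intro i
    simp [ev_X, hθ]
  exact congrArg (fun g => g p) key

end Pool.Agent.FKP.H17
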